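import Pool.Agent.X153.CS.Link

/-!
# Monotonicity of an alternating hyperbolic cosecant series

`S(r) = ∑_{k ≥ 1} (-1)^(k+1) sinh y / sinh (k y)`, `y = arcosh r`, is strictly increasing on
`[1, ∞)`.
-/

set_option autoImplicit false

open Set Filter Topology

namespace Pool.Agent.Results.MP_913ab3_an.StrictlyIncreasing

/-- The term of index `k + 1` of the series: `(-1)^k sinh y / sinh ((k + 1) y)` with
`y = arcosh r`. -/
noncomputable def term (r : ℝ) (k : ℕ) : ℝ :=
  (-1) ^ k * (Real.sinh (Real.arcosh r) / Real.sinh (((k : ℝ) + 1) * Real.arcosh r))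

/-- The sum of the series. -/
noncomputable def S (r : ℝ) : ℝ := ∑' k : ℕ, term r k

/-- The positive answer to Q1: the series converges absolutely for `r > 1`, the limit `L` of `S` at
`1` from the right exists, and `S`, with the value `L` at `1`, is strictly increasing on
`[1, ∞)`. -/
theorem result :
    (∀ r : ℝ, 1 < r → Summable fun k => |term r k|) ∧
    ∃ L : ℝ, Tendsto S (𝓝[>] 1) (𝓝 L) ∧ StrictMonoOn (Function.update S 1 L) (Ici 1) := by
  have hpos : ∀ r : ℝ, 1 < r → 0 < Real.arcosh r := by
    intro r hr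
    have := Real.strictMonoOn_arcosh (show (0 : ℝ) < 1 by norm_num) (show (0 : ℝ) < r by linarith) hr
    rwa [Real.arcosh_zero] at this
  have hS : ∀ r : ℝ, 1 < r → S r = 1 / 2 + 1 / 2 * ∑' m, X153.CS.g m (2 * Real.arcosh r) := by
    intro r hr
    exact X153.CS.Sy_eq (hpos r hr)
  have hmono : StrictMonoOn S (Ioi 1) := by
    intro r hr r' hr' hlt
    simp only [mem_Ioi] at hr hr'
    rw [hS r hr, hS r' hr']
    have h1 := Real.strictMonoOn_arcosh (show (0 : ℝ) < r by linarith) (show (0 : ℝ) < r' by linarith)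
      hlt
    have h2 := X153.CS.strictMono_f (show 0 < 2 * Real.arcosh r by linarith [hpos r hr])
      (show 0 < 2 * Real.arcosh r' by linarith [hpos r' hr']) (by linarith)
    simp only at h2
    linarith
  have hbdd : BddBelow (S '' Ioi 1) := by
    refine ⟨0, ?_⟩
    rintro _ ⟨r, hr, rfl⟩
    simp only [mem_Ioi] at hr
    rw [hS r hr]
    have : 0 ≤ ∑' m, X153.CS.g m (2 * Real.arcosh r) := by
      refine tsum_nonneg fun m => ?_
      have hp := hpos r hr
      unfold X153.CS.g
      apply mul_nonneg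
      · rw [sub_nonneg]
        apply Real.exp_le_exp.2
        nlinarith
      · rw [Real.tanh_eq_sinh_div_cosh]
        apply div_nonneg
        · exact Real.sinh_nonneg_iff.2 (by positivity)
        · exact (Real.cosh_pos _).le
    linarith
  refine ⟨fun r hr => X153.CS.summ_abs (hpos r hr), sInf (S '' Ioi 1),
    hmono.monotoneOn.tendsto_nhdsGT hbdd, ?_⟩
  intro r hr r' hr' hlt
  simp only [mem_Ici] at hr hr'
  have hr'1 : 1 < r' := lt_of_le_of_lt hr hlt
  rw [Function.update_of_ne hr'1.ne']
  rcases eq_or_lt_of_le hr with h | h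
  · subst h
    rw [Function.update_self]
    have hm : (1 + r') / 2 ∈ Ioi (1 : ℝ) := by simp only [mem_Ioi]; linarith
    refine lt_of_le_of_lt (csInf_le hbdd ⟨_, hm, rfl⟩) (hmono hm hr'1 ?_)
    linarith
  · rw [Function.update_of_ne h.ne']
    exact hmono h hr'1 hlt

end Pool.Agent.Results.MP_913ab3_an.StrictlyIncreasing
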